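import Pool.Agent.TH349.EQ.Moment

set_option autoImplicit false

/-! The exceptional set for a single threshold. -/

namespace Pool.Agent.TH349.EQ

open Finset Real Pool.Agent.H306R2.RZ Pool.Agent.W57.SW

lemma opr_low {Y : ℕ} (hY : 500 ≤ Y) : (Y : ℝ) ≤ 2 * log Y * (opr Y).card := by
  have hY' : (500 : ℝ) ≤ Y := by exact_mod_cast hY
  have h1 := primeCounting_low (y := Y)
  have h2 := card_opr (y := Y) (by omega)
  obtain ⟨u, hu⟩ : ∃ u : ℝ, u = √((Y : ℝ) + 1) := ⟨_, rfl⟩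
  have hu2 : u ^ 2 = Y + 1 := by rw [hu]; exact sq_sqrt (by positivity)
  have hu22 : 22 ≤ u := by
    rw [hu]; apply le_sqrt_of_sq_le; linarith
  have h3 : log ((Y : ℝ) + 1) ≤ 2 * (u - 1) := by
    have : log ((Y : ℝ) + 1) = 2 * log u := by
      rw [← hu2, log_pow]; push_cast; ring
    rw [this]
    have := log_le_sub_one_of_pos (by linarith : 0 < u)
    linarith
  have h4 : log (Y : ℝ) ≤ log ((Y : ℝ) + 1) := log_le_log (by linarith) (by linarith)
  have h5 : (0.69 : ℝ) ≤ log 2 := by linarith [log_two_gt_d9]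
  have h6 : 0.69 * (Y : ℝ) ≤ Y * log 2 := by nlinarith
  have hlog : 0 ≤ log (Y : ℝ) := log_nonneg (by linarith)
  have h7 : 8 * (u - 1) ≤ 0.38 * (u ^ 2 - 1) := by
    have : 0 ≤ (u - 1) * (u - 22) := mul_nonneg (by linarith) (by linarith)
    linarith
  rw [h2]
  have h8 : 2 * log (Y : ℝ) * (Nat.primeCounting Y - 1) =
      2 * (Nat.primeCounting Y * log Y) - 2 * log Y := by ring
  linarith

lemma card_opr_le (Y : ℕ) : (opr Y).card ≤ Y := by
  have h : opr Y ⊆ Icc 1 Y := by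
    intro p hp
    rw [mem_opr] at hp
    exact mem_Icc.mpr ⟨hp.1.one_le, hp.2.1⟩
  have h2 := card_le_card h
  rwa [Nat.card_Icc, Nat.add_sub_cancel] at h2

lemma asym (A B c δ ε : ℝ) (hA : 1 < A) (hc : 0 < c) (hδA : 1 < (1 - 2 * δ) * A)
    (hδ0 : 0 ≤ δ) (hε : 0 < ε) :
    ∃ X0 : ℕ, 1 ≤ X0 ∧ ∀ X Y : ℕ, X0 ≤ X → c * (log X) ^ A ≤ Y → (Y : ℝ) ≤ (log X) ^ B →
      500 ≤ Y ∧ (4 * (Nat.log Y X : ℝ) / (((Y : ℝ) ^ (-δ) / 2) ^ 2 * (opr Y).card)) ^ (Nat.log Y X) ≤
        (X : ℝ) ^ (-(1 - 2 * δ - 1 / A - ε)) := by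
  have hA0 : 0 < A := by linarith
  have hlogt : ∀ r : ℝ, ∀ᶠ t : ℝ in Filter.atTop, r ≤ log t := fun r =>
    tendsto_log_atTop.eventually (Filter.eventually_ge_atTop r)
  have hδ2 : 0 < 1 - 2 * δ := by
    by_contra h
    push Not at h
    nlinarith
  obtain ⟨C1, hC1⟩ : ∃ C1 : ℝ, C1 = log 32 := ⟨_, rfl⟩
  have hC1pos : 0 ≤ C1 := by rw [hC1]; exact log_nonneg (by norm_num)
  have e1 : ∀ᶠ t : ℝ in Filter.atTop, 1 ≤ t := Filter.eventually_ge_atTop _
  have e2 := hlogt 1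
  have e3 := hlogt ((log 500 - log c) / A)
  have e4 := hlogt ((C1 - (1 / A + ε / 2) * log c) / (ε / 2 * A))
  have e5 : ∀ᶠ t : ℝ in Filter.atTop, B * log t ≤ ε / 2 * t := by
    have h1 : ∀ᶠ t : ℝ in Filter.atTop, ‖log t‖ ≤ ε / 2 / (|B| + 1) * ‖id t‖ :=
      isLittleO_log_id_atTop.def (by positivity)
    filter_upwards [h1, e1, e2] with t a1 a2 a3
    rw [norm_of_nonneg (by linarith), id, norm_of_nonneg (by linarith)] at a1
    have h2 : B * log t ≤ (|B| + 1) * log t := by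
      apply mul_le_mul_of_nonneg_right _ (by linarith)
      linarith [le_abs_self B]
    refine h2.trans ?_
    calc (|B| + 1) * log t ≤ (|B| + 1) * (ε / 2 / (|B| + 1) * t) :=
          mul_le_mul_of_nonneg_left a1 (by positivity)
      _ = ε / 2 * t := by field_simp
  have e6 := hlogt ((C1 - (1 - 2 * δ) * log c) / ((1 - 2 * δ) * A - 1))
  obtain ⟨t0, ht0⟩ := Filter.eventually_atTop.mp
    (e1.and (e2.and (e3.and (e4.and (e5.and e6)))))
  refine ⟨⌈exp t0⌉₊ + 1, by omega, ?_⟩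
  intro X Y hX hY1 hY2
  have hX1 : exp t0 ≤ X := Nat.ceil_le.mp (by omega)
  have hX0 : (0 : ℝ) < X := (exp_pos _).trans_le hX1
  obtain ⟨t, ht⟩ : ∃ t : ℝ, t = log X := ⟨_, rfl⟩
  have htt0 : t0 ≤ t := by rw [ht, le_log_iff_exp_le hX0]; exact hX1
  obtain ⟨b1, b2, b3, b4, b5, b6⟩ := ht0 t htt0
  rw [← ht] at hY1 hY2
  have htpos : 0 < t := by linarith
  obtain ⟨L, hL⟩ : ∃ L : ℝ, L = log t := ⟨_, rfl⟩
  rw [← hL] at b2 b3 b4 b5 b6
  rw [div_le_iff₀ hA0] at b3
  rw [div_le_iff₀ (by positivity)] at b4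
  rw [div_le_iff₀ (by linarith)] at b6
  have htA : 0 < t ^ A := by positivity
  have hlogcA : log (c * t ^ A) = log c + A * L := by
    rw [log_mul hc.ne' htA.ne', log_rpow htpos, hL]
  have h500 : (500 : ℝ) ≤ c * t ^ A := by
    rw [← log_le_log_iff (by norm_num) (by positivity), hlogcA]
    linarith
  have hY500 : (500 : ℝ) ≤ Y := h500.trans hY1
  have hYn : 500 ≤ Y := by exact_mod_cast hY500
  refine ⟨hYn, ?_⟩
  have hYpos : (0 : ℝ) < Y := by linarith
  obtain ⟨l, hl⟩ : ∃ l : ℝ, l = log Y := ⟨_, rfl⟩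
  have hl1 : log c + A * L ≤ l := by
    rw [hl, ← hlogcA]; exact log_le_log (by positivity) hY1
  have hl2 : l ≤ B * L := by
    rw [hl, hL, ← log_rpow htpos]; exact log_le_log hYpos hY2
  have hlpos : 0 < l := by
    rw [hl]; exact log_pos (by linarith)
  have hlow := opr_low hYn
  rw [← hl] at hlow
  obtain ⟨M, hM⟩ : ∃ M : ℝ, M = ((opr Y).card : ℝ) := ⟨_, rfl⟩
  rw [← hM] at hlow ⊢
  have hMpos : 0 < M := by
    by_contra h
    push Not at h
    have : 2 * l * M ≤ 0 := mul_nonpos_of_nonneg_of_nonpos (by positivity) h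
    linarith
  obtain ⟨k, hk⟩ : ∃ k : ℕ, k = Nat.log Y X := ⟨_, rfl⟩
  rw [← hk]
  have hXne : X ≠ 0 := by
    intro h; rw [h] at hX0; simp at hX0
  have hk1 : Y ^ k ≤ X := by rw [hk]; exact Nat.pow_log_le_self Y hXne
  have hk2 : X < Y ^ (k + 1) := by rw [hk]; exact Nat.lt_pow_succ_log_self (by omega) X
  have hkt : k * l ≤ t := by
    have h3 : ((Y ^ k : ℕ) : ℝ) ≤ X := by exact_mod_cast hk1
    push_cast at h3
    have h4 := log_le_log (by positivity) h3
    rw [log_pow] at h4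
    rw [hl, ht]; exact h4
  have hkt' : t < (k + 1) * l := by
    have h3 : (X : ℝ) < ((Y ^ (k + 1) : ℕ) : ℝ) := by exact_mod_cast hk2
    push_cast at h3
    have h4 := log_lt_log hX0 h3
    rw [log_pow] at h4
    push_cast at h4
    rw [hl, ht]; exact h4
  -- the ratio
  obtain ⟨η, hη⟩ : ∃ η : ℝ, η = (Y : ℝ) ^ (-δ) / 2 := ⟨_, rfl⟩
  have hηpos : 0 < η := by rw [hη]; positivity
  rw [← hη]
  have hratio : 4 * (k : ℝ) / (η ^ 2 * M) ≤ 8 * t / (η ^ 2 * Y) := by
    rw [div_le_div_iff₀ (by positivity) (by positivity)]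
    have h1 : (k : ℝ) * Y ≤ 2 * t * M := by
      calc (k : ℝ) * Y ≤ k * (2 * l * M) := mul_le_mul_of_nonneg_left hlow (by positivity)
        _ = 2 * (k * l) * M := by ring
        _ ≤ 2 * t * M := by
          apply mul_le_mul_of_nonneg_right _ hMpos.le
          linarith
    have h2 : 0 ≤ 4 * η ^ 2 := by positivity
    have h3 := mul_le_mul_of_nonneg_left h1 h2
    linarith
  obtain ⟨R, hR⟩ : ∃ R : ℝ, R = 8 * t / (η ^ 2 * Y) := ⟨_, rfl⟩
  rw [← hR] at hratio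
  have hRpos : 0 < R := by rw [hR]; positivity
  have hlogη : log (η ^ 2) = -(2 * δ) * l - log 4 := by
    rw [hη, div_pow, log_div (by positivity) (by positivity), log_pow, log_rpow hYpos, hl]
    norm_num
    ring
  have hlogR : log R = C1 + L - (1 - 2 * δ) * l := by
    rw [hR, log_div (by positivity) (by positivity), log_mul (by norm_num) htpos.ne',
      log_mul (by positivity) hYpos.ne', hlogη, hC1, ← hL, ← hl]
    have : log (32 : ℝ) = log 8 + log 4 := by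
      rw [← log_mul (by norm_num) (by norm_num)]; norm_num
    rw [this]
    ring
  refine (pow_le_pow_left₀ (by positivity) hratio k).trans ?_
  rw [← exp_log (show 0 < R ^ k by positivity), rpow_def_of_pos hX0, exp_le_exp, log_pow, hlogR,
    ← ht]
  have hQ : 0 ≤ (1 - 2 * δ) * l - L - C1 := by
    have := mul_le_mul_of_nonneg_left hl1 hδ2.le
    linarith
  have h1 : (t - l) * ((1 - 2 * δ) * l - L - C1) ≤ k * l * ((1 - 2 * δ) * l - L - C1) := by
    apply mul_le_mul_of_nonneg_right _ hQ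
    linarith
  have h2 : L + C1 ≤ (1 / A + ε / 2) * l := by
    have h3 : L + C1 ≤ (1 / A + ε / 2) * (log c + A * L) := by
      have : (1 / A + ε / 2) * (log c + A * L) = (1 / A + ε / 2) * log c + L + ε / 2 * A * L := by
        field_simp
        ring
      rw [this]
      linarith
    refine h3.trans (mul_le_mul_of_nonneg_left hl1 (by positivity))
  -- divide by `l`
  have h4 : t * (1 - 2 * δ - 1 / A - ε) ≤ k * ((1 - 2 * δ) * l - L - C1) := by
    have h5 : t * (1 - 2 * δ - 1 / A - ε) * l ≤ k * ((1 - 2 * δ) * l - L - C1) * l := by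
      have h6 : t * (L + C1) ≤ t * ((1 / A + ε / 2) * l) := mul_le_mul_of_nonneg_left h2 htpos.le
      have h7 : l * ((1 - 2 * δ) * l - L - C1) ≤ l * (ε / 2 * t) := by
        apply mul_le_mul_of_nonneg_left _ hlpos.le
        have := mul_nonneg hδ0 hlpos.le
        linarith
      linarith
    exact le_of_mul_le_mul_right h5 hlpos
  linarith

/-- the exceptional set for a single threshold -/
theorem core (A B c δ ε : ℝ) (hA : 1 < A) (hc : 0 < c) (hδ0 : 0 ≤ δ) (hε : 0 < ε) :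
    ∃ K : ℝ, 0 < K ∧ ∀ X Y : ℕ, 1 ≤ X → c * (log X) ^ A ≤ Y → (Y : ℝ) ≤ (log X) ^ B →
      (((sqf X).filter fun m => (Y : ℝ) ^ (1 - δ) / 2 ≤ |cs Y m|).card : ℝ) ≤
        K * (X : ℝ) ^ (1 / A + 2 * δ + ε) := by
  have hA0 : 0 < A := by linarith
  have htriv : ∀ X Y : ℕ, ((sqf X).filter fun m => (Y : ℝ) ^ (1 - δ) / 2 ≤ |cs Y m|).card ≤ X := by
    intro X Y
    refine (card_filter_le _ _).trans ?_
    rw [sqf]
    refine (card_filter_le _ _).trans ?_
    rw [Nat.card_Icc, Nat.add_sub_cancel]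
  rcases le_or_gt ((1 - 2 * δ) * A) 1 with hcase | hcase
  · refine ⟨1, one_pos, fun X Y hX _ _ => ?_⟩
    have hX1 : (1 : ℝ) ≤ X := by exact_mod_cast hX
    have h1 : (((sqf X).filter fun m => (Y : ℝ) ^ (1 - δ) / 2 ≤ |cs Y m|).card : ℝ) ≤ X := by
      exact_mod_cast htriv X Y
    rw [one_mul]
    refine h1.trans ?_
    calc (X : ℝ) = (X : ℝ) ^ (1 : ℝ) := (rpow_one _).symm
      _ ≤ _ := by
        apply rpow_le_rpow_of_exponent_le hX1
        have : 1 - 2 * δ ≤ 1 / A := by rw [le_div_iff₀ hA0]; exact hcase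
        linarith
  obtain ⟨X0, hX01, hX0⟩ := asym A B c δ (ε / 2) hA hc hcase hδ0 (by positivity)
  obtain ⟨C, hC, hM⟩ := markov (ε / 2) (by positivity)
  refine ⟨C + X0, by positivity, ?_⟩
  intro X Y hX hY1 hY2
  have hX1 : (1 : ℝ) ≤ X := by exact_mod_cast hX
  have hXpos : (0 : ℝ) < X := by linarith
  have hpow1 : (1 : ℝ) ≤ (X : ℝ) ^ (1 / A + 2 * δ + ε) := one_le_rpow hX1 (by positivity)
  rcases lt_or_ge X X0 with hs | hs
  · have h2 : (((sqf X).filter fun m => (Y : ℝ) ^ (1 - δ) / 2 ≤ |cs Y m|).card : ℝ) ≤ X0 := by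
      exact_mod_cast (htriv X Y).trans hs.le
    calc _ ≤ (C + X0) * 1 := by linarith
      _ ≤ _ := mul_le_mul_of_nonneg_left hpow1 (by positivity)
  · obtain ⟨h500, hk⟩ := hX0 X Y hs hY1 hY2
    have hXne : X ≠ 0 := by omega
    have hYpos : (0 : ℝ) < Y := by
      have : 0 < Y := by omega
      exact_mod_cast this
    have hcard : 0 < (opr Y).card := card_pos.mpr ⟨3, mem_opr.mpr ⟨Nat.prime_three, by omega, by omega⟩⟩
    have h1 := hM X Y (Nat.log Y X) ((Y : ℝ) ^ (-δ) / 2) (by positivity) hX (by omega)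
      (Nat.pow_log_le_self Y hXne) hcard
    have h0 : (((sqf X).filter fun m => (Y : ℝ) ^ (1 - δ) / 2 ≤ |cs Y m|).card : ℝ) ≤
        (((sqf X).filter fun m => (Y : ℝ) ^ (-δ) / 2 * (opr Y).card ≤ |cs Y m|).card : ℝ) := by
      have : ((sqf X).filter fun m => (Y : ℝ) ^ (1 - δ) / 2 ≤ |cs Y m|) ⊆
          ((sqf X).filter fun m => (Y : ℝ) ^ (-δ) / 2 * (opr Y).card ≤ |cs Y m|) := by
        intro m hm
        rw [mem_filter] at hm ⊢
        refine ⟨hm.1, le_trans ?_ hm.2⟩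
        have h3 : ((opr Y).card : ℝ) ≤ Y := by exact_mod_cast card_opr_le Y
        calc (Y : ℝ) ^ (-δ) / 2 * (opr Y).card ≤ (Y : ℝ) ^ (-δ) / 2 * Y :=
              mul_le_mul_of_nonneg_left h3 (by positivity)
          _ = (Y : ℝ) ^ (1 - δ) / 2 := by
              rw [sub_eq_add_neg, add_comm, rpow_add hYpos, rpow_one]; ring
      exact_mod_cast card_le_card this
    refine h0.trans (h1.trans ?_)
    calc C * (X : ℝ) ^ (1 + ε / 2) *
          (4 * (Nat.log Y X : ℝ) / (((Y : ℝ) ^ (-δ) / 2) ^ 2 * (opr Y).card)) ^ (Nat.log Y X) ≤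
          C * (X : ℝ) ^ (1 + ε / 2) * (X : ℝ) ^ (-(1 - 2 * δ - 1 / A - ε / 2)) :=
          mul_le_mul_of_nonneg_left hk (by positivity)
      _ = C * (X : ℝ) ^ (1 / A + 2 * δ + ε) := by
          rw [mul_assoc, ← rpow_add hXpos]; congr 2; ring
      _ ≤ _ := by
          apply mul_le_mul_of_nonneg_right _ (by positivity)
          have : (0 : ℝ) ≤ X0 := Nat.cast_nonneg _
          linarith

end Pool.Agent.TH349.EQ
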