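import Mathlib

set_option autoImplicit false

/-! Power moments of sums of signs from the second moments of the elementary symmetric functions. -/

namespace Pool.Agent.TH349.EQ

open Finset

/-- elementary symmetric function of the values `x p`, `p ∈ P` -/
def ES (P : Finset ℕ) (x : ℕ → ℝ) (j : ℕ) : ℝ := ∑ T ∈ P.powersetCard j, ∏ p ∈ T, x p

lemma ES_zero (P : Finset ℕ) (x : ℕ → ℝ) : ES P x 0 = 1 := by
  simp [ES]

lemma ES_empty_succ (x : ℕ → ℝ) (j : ℕ) : ES ∅ x (j + 1) = 0 := by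
  rw [ES, powersetCard_eq_empty.mpr (by simp), sum_empty]

lemma ES_insert {P : Finset ℕ} {q : ℕ} (hq : q ∉ P) (x : ℕ → ℝ) (j : ℕ) :
    ES (insert q P) x (j + 1) = ES P x (j + 1) + x q * ES P x j := by
  unfold ES
  rw [powersetCard_succ_insert hq, sum_union, sum_image, mul_sum]
  · congr 1
    apply sum_congr rfl
    intro T hT
    rw [prod_insert (fun h => hq ((mem_powersetCard.mp hT).1 h))]
  · intro T hT T' hT' h
    have h1 : q ∉ T := fun h => hq ((mem_powersetCard.mp hT).1 h)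
    have h2 : q ∉ T' := fun h => hq ((mem_powersetCard.mp hT').1 h)
    rw [← erase_insert h1, ← erase_insert h2]
    exact congrArg (fun s => erase s q) h
  · rw [disjoint_left]
    intro T hT hT'
    rw [mem_image] at hT'
    obtain ⟨U, _, rfl⟩ := hT'
    exact hq ((mem_powersetCard.mp hT).1 (mem_insert_self q U))

lemma ES_one (P : Finset ℕ) (x : ℕ → ℝ) : ES P x 1 = ∑ p ∈ P, x p := by
  induction P using Finset.induction_on with
  | empty => rw [ES_empty_succ, sum_empty]
  | insert q P hq ih => rw [ES_insert hq, ih, ES_zero, sum_insert hq]; ring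

/-- the recurrence -/
lemma ES_rec (P : Finset ℕ) (x : ℕ → ℝ) (hx : ∀ p ∈ P, x p ^ 3 = x p) (j : ℕ) :
    (∑ p ∈ P, x p) * ES P x (j + 1) =
      (j + 2) * ES P x (j + 2) + ((∑ p ∈ P, x p ^ 2) - j) * ES P x j := by
  induction P using Finset.induction_on generalizing j with
  | empty =>
    rcases j with _ | j
    · simp [ES_empty_succ, ES_zero]
    · simp [ES_empty_succ]
  | insert q P hq ih =>
    have ih' := ih fun p hp => hx p (mem_insert_of_mem hp)
    have hxq := hx q (mem_insert_self q P)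
    rw [sum_insert hq, sum_insert hq, ES_insert hq, ES_insert hq]
    have h1 := ih' j
    rcases j with _ | j
    · rw [ES_zero] at h1 ⊢
      rw [ES_zero]
      have h2 := ES_one P x
      rw [zero_add] at h1 ⊢
      rw [h2] at h1 ⊢
      push_cast at h1 ⊢
      linear_combination h1
    · have h2 := ih' j
      rw [ES_insert hq]
      push_cast at h1 ⊢
      linear_combination h1 + x q * h2 - ES P x j * hxq

lemma ES_bound (P : Finset ℕ) (x : ℕ → ℝ) (hx : ∀ p ∈ P, x p ^ 3 = x p) (j : ℕ) :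
    (((∑ p ∈ P, x p ^ 2) - j) * ES P x j) ^ 2 ≤ (((P.card : ℝ) - j) * ES P x j) ^ 2 := by
  have hval : ∀ p ∈ P, x p = 0 ∨ x p ^ 2 = 1 := by
    intro p hp
    rcases eq_or_ne (x p) 0 with h | h
    · exact Or.inl h
    · right
      have h1 : x p * (x p ^ 2 - 1) = 0 := by linear_combination hx p hp
      rcases mul_eq_zero.mp h1 with h2 | h2
      · exact absurd h2 h
      · linarith
  have hle : ∑ p ∈ P, x p ^ 2 ≤ P.card := by
    rw [← nsmul_one, ← sum_const]
    apply sum_le_sum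
    intro p hp
    rcases hval p hp with h | h <;> rw [h]
    norm_num
  by_cases h0 : ES P x j = 0
  · rw [h0]; simp
  · have hge : (j : ℝ) ≤ ∑ p ∈ P, x p ^ 2 := by
      by_contra hcon
      push Not at hcon
      apply h0
      unfold ES
      apply sum_eq_zero
      intro T hT
      rw [mem_powersetCard] at hT
      by_contra hne
      have hne := prod_ne_zero_iff.mp hne
      have h1 : (j : ℝ) = ∑ p ∈ T, x p ^ 2 := by
        rw [← hT.2, ← nsmul_one, ← sum_const]
        apply sum_congr rfl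
        intro p hp
        rcases hval p (hT.1 hp) with h | h
        · exact absurd h (hne p hp)
        · exact h.symm
      have h2 : ∑ p ∈ T, x p ^ 2 ≤ ∑ p ∈ P, x p ^ 2 :=
        sum_le_sum_of_subset_of_nonneg hT.1 fun _ _ _ => by positivity
      linarith
    rw [mul_pow, mul_pow]
    apply mul_le_mul_of_nonneg_right _ (by positivity)
    apply pow_le_pow_left₀ <;> linarith

lemma choose_step1 (M i : ℕ) : ((i : ℝ) + 2) ^ 2 * (M.choose (i + 2) : ℝ) ≤
    (i + 2) * M * (M.choose (i + 1) : ℝ) := by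
  have h := Nat.choose_succ_right_eq M (i + 1)
  have h1 : ((M.choose (i + 2) : ℕ) : ℝ) * (i + 2) ≤ M.choose (i + 1) * M := by
    have h2 : M.choose (i + 1 + 1) * (i + 1 + 1) ≤ M.choose (i + 1) * M := by
      rw [h]; exact Nat.mul_le_mul_left _ (Nat.sub_le _ _)
    have h3 : ((M.choose (i + 1 + 1) * (i + 1 + 1) : ℕ) : ℝ) ≤ (M.choose (i + 1) * M : ℕ) := by
      exact_mod_cast h2
    push_cast at h3
    calc ((M.choose (i + 2) : ℕ) : ℝ) * (i + 2) = (M.choose (i + 1 + 1) : ℝ) * (i + 1 + 1) := by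
          ring_nf
      _ ≤ _ := h3
  have h4 := mul_le_mul_of_nonneg_left h1 (by positivity : (0 : ℝ) ≤ (i : ℝ) + 2)
  nlinarith

lemma choose_step2 (M i : ℕ) : ((M : ℝ) - i) ^ 2 * (M.choose i : ℝ) ≤
    (i + 1) * M * (M.choose (i + 1) : ℝ) := by
  rcases le_or_gt i M with hi | hi
  · have h := Nat.choose_succ_right_eq M i
    have h1 : ((M.choose (i + 1) : ℕ) : ℝ) * (i + 1) = M.choose i * ((M : ℝ) - i) := by
      have h3 : ((M.choose (i + 1) * (i + 1) : ℕ) : ℝ) = (M.choose i * (M - i) : ℕ) := by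
        exact_mod_cast h
      rw [Nat.cast_mul, Nat.cast_mul, Nat.cast_sub hi] at h3
      push_cast at h3
      exact h3
    have hMi : (0 : ℝ) ≤ (M : ℝ) - i := by
      have : (i : ℝ) ≤ M := by exact_mod_cast hi
      linarith
    have hi0 : (0 : ℝ) ≤ i := Nat.cast_nonneg i
    calc ((M : ℝ) - i) ^ 2 * (M.choose i : ℝ) = ((M : ℝ) - i) * (M.choose i * ((M : ℝ) - i)) := by ring
      _ = ((M : ℝ) - i) * (((M.choose (i + 1) : ℕ) : ℝ) * (i + 1)) := by rw [h1]
      _ ≤ M * (((M.choose (i + 1) : ℕ) : ℝ) * (i + 1)) := by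
          apply mul_le_mul_of_nonneg_right _ (by positivity)
          linarith
      _ = _ := by ring
  · rw [Nat.choose_eq_zero_of_lt hi]
    simp
    positivity

/-- moments of the sums of signs from the second moments of the symmetric functions -/
theorem moment {S : Finset ℕ} {P : Finset ℕ} {x : ℕ → ℕ → ℝ}
    (hx : ∀ m ∈ S, ∀ p ∈ P, x m p ^ 3 = x m p) {D : ℝ} (K : ℕ) (hD : 0 ≤ D)
    (h : ∀ j ≤ K, ∑ m ∈ S, ES P (x m) j ^ 2 ≤ D * (P.card.choose j : ℝ)) :
    ∀ k j, k + j ≤ K → ∑ m ∈ S, (∑ p ∈ P, x m p) ^ (2 * k) * ES P (x m) j ^ 2 ≤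
      D * (4 * K * P.card) ^ k * (P.card.choose j : ℝ) := by
  intro k
  induction k with
  | zero =>
    intro j hj
    simpa using h j (by omega)
  | succ k ih =>
    intro j hj
    obtain ⟨M, hM⟩ : ∃ M, M = P.card := ⟨_, rfl⟩
    rw [← hM] at ih ⊢
    have hK1 : (1 : ℝ) ≤ K := by
      have : 1 ≤ K := by omega
      exact_mod_cast this
    have hM0 : (0 : ℝ) ≤ M := Nat.cast_nonneg M
    have hG : (0 : ℝ) ≤ D * (4 * K * M) ^ k := by positivity
    rcases j with _ | i
    · have e : ∀ m ∈ S, (∑ p ∈ P, x m p) ^ (2 * (k + 1)) * ES P (x m) 0 ^ 2 =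
          (∑ p ∈ P, x m p) ^ (2 * k) * ES P (x m) 1 ^ 2 := by
        intro m _
        rw [ES_zero, ES_one]; ring
      rw [sum_congr rfl e]
      refine (ih 1 (by omega)).trans ?_
      rw [Nat.choose_one_right, Nat.choose_zero_right, pow_succ]
      push_cast
      have : (M : ℝ) ≤ 4 * K * M := by nlinarith
      calc D * (4 * K * M) ^ k * M ≤ D * (4 * K * M) ^ k * (4 * K * M) :=
            mul_le_mul_of_nonneg_left this hG
        _ = _ := by ring
    · have e : ∀ m ∈ S, (∑ p ∈ P, x m p) ^ (2 * (k + 1)) * ES P (x m) (i + 1) ^ 2 ≤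
          2 * (i + 2) ^ 2 * ((∑ p ∈ P, x m p) ^ (2 * k) * ES P (x m) (i + 2) ^ 2) +
          2 * ((M : ℝ) - i) ^ 2 * ((∑ p ∈ P, x m p) ^ (2 * k) * ES P (x m) i ^ 2) := by
        intro m hm
        have h1 := ES_rec P (x m) (hx m hm) i
        have h2 := ES_bound P (x m) (hx m hm) i
        rw [← hM] at h2
        set s := ∑ p ∈ P, x m p
        have h3 : (s * ES P (x m) (i + 1)) ^ 2 ≤ 2 * (i + 2) ^ 2 * ES P (x m) (i + 2) ^ 2 +
            2 * ((M : ℝ) - i) ^ 2 * ES P (x m) i ^ 2 := by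
          rw [h1]
          have h4 : ∀ a b : ℝ, (a + b) ^ 2 ≤ 2 * a ^ 2 + 2 * b ^ 2 := by
            intro a b; nlinarith [sq_nonneg (a - b)]
          refine (h4 _ _).trans ?_
          nlinarith
        have h5 : 0 ≤ s ^ (2 * k) := by rw [pow_mul]; positivity
        calc s ^ (2 * (k + 1)) * ES P (x m) (i + 1) ^ 2 =
            s ^ (2 * k) * (s * ES P (x m) (i + 1)) ^ 2 := by ring
          _ ≤ s ^ (2 * k) * (2 * (i + 2) ^ 2 * ES P (x m) (i + 2) ^ 2 +
            2 * ((M : ℝ) - i) ^ 2 * ES P (x m) i ^ 2) := mul_le_mul_of_nonneg_left h3 h5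
          _ = _ := by ring
      refine (sum_le_sum e).trans ?_
      rw [sum_add_distrib, ← mul_sum, ← mul_sum]
      have a1 := ih (i + 2) (by omega)
      have a2 := ih i (by omega)
      have b1 := choose_step1 M i
      have b2 := choose_step2 M i
      have hi0 : (0 : ℝ) ≤ i := Nat.cast_nonneg i
      have c1 : 2 * ((i : ℝ) + 2) ^ 2 * ∑ m ∈ S, (∑ p ∈ P, x m p) ^ (2 * k) * ES P (x m) (i + 2) ^ 2
          ≤ D * (4 * K * M) ^ k * (2 * ((i + 2) * M * (M.choose (i + 1) : ℝ))) := by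
        calc _ ≤ 2 * ((i : ℝ) + 2) ^ 2 * (D * (4 * K * M) ^ k * (M.choose (i + 2) : ℝ)) :=
              mul_le_mul_of_nonneg_left a1 (by positivity)
          _ = D * (4 * K * M) ^ k * (2 * (((i : ℝ) + 2) ^ 2 * (M.choose (i + 2) : ℝ))) := by ring
          _ ≤ _ := by
            apply mul_le_mul_of_nonneg_left _ hG
            linarith
      have c2 : 2 * ((M : ℝ) - i) ^ 2 * ∑ m ∈ S, (∑ p ∈ P, x m p) ^ (2 * k) * ES P (x m) i ^ 2
          ≤ D * (4 * K * M) ^ k * (2 * ((i + 1) * M * (M.choose (i + 1) : ℝ))) := by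
        calc _ ≤ 2 * ((M : ℝ) - i) ^ 2 * (D * (4 * K * M) ^ k * (M.choose i : ℝ)) :=
              mul_le_mul_of_nonneg_left a2 (by positivity)
          _ = D * (4 * K * M) ^ k * (2 * (((M : ℝ) - i) ^ 2 * (M.choose i : ℝ))) := by ring
          _ ≤ _ := by
            apply mul_le_mul_of_nonneg_left _ hG
            linarith
      have hKi : (i : ℝ) + 2 ≤ K := by
        have : i + 2 ≤ K := by omega
        exact_mod_cast this
      have hC0 : (0 : ℝ) ≤ (M.choose (i + 1) : ℝ) := Nat.cast_nonneg _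
      have c3 : 2 * ((i + 2) * M * (M.choose (i + 1) : ℝ)) + 2 * ((i + 1) * M * (M.choose (i + 1) : ℝ))
          ≤ 4 * K * M * (M.choose (i + 1) : ℝ) := by
        have : 0 ≤ (M : ℝ) * (M.choose (i + 1) : ℝ) := by positivity
        nlinarith
      calc _ ≤ D * (4 * K * M) ^ k * (2 * ((i + 2) * M * (M.choose (i + 1) : ℝ))) +
            D * (4 * K * M) ^ k * (2 * ((i + 1) * M * (M.choose (i + 1) : ℝ))) := add_le_add c1 c2
        _ = D * (4 * K * M) ^ k * (2 * ((i + 2) * M * (M.choose (i + 1) : ℝ)) +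
            2 * ((i + 1) * M * (M.choose (i + 1) : ℝ))) := by ring
        _ ≤ D * (4 * K * M) ^ k * (4 * K * M * (M.choose (i + 1) : ℝ)) :=
            mul_le_mul_of_nonneg_left c3 hG
        _ = _ := by ring

end Pool.Agent.TH349.EQ
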