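import Pool.Agent.H423R2.RZL.HBLS
import Pool.Agent.W57.SW.Base
import Pool.Agent.TH349.EQ.Esymm

set_option autoImplicit false

/-! Moments of character sums over primes, from Heath-Brown's large sieve for real characters. -/

namespace Pool.Agent.TH349.EQ

open Finset Real Pool.Agent.H306R2.RZ Pool.Agent.W57.SW

/-- the sum of `(-m/p)` over the odd primes `p ≤ Y` -/
noncomputable def cs (Y m : ℕ) : ℝ := ∑ p ∈ opr Y, js (-(m : ℤ)) p

lemma js_cube (a : ℤ) (n : ℕ) : js a n ^ 3 = js a n := by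
  unfold js
  rcases jacobiSym.trichotomy a n with h | h | h <;> rw [h] <;> norm_num

lemma js_sq_le (a : ℤ) (n : ℕ) : js a n ^ 2 ≤ 1 := by
  unfold js
  rcases jacobiSym.trichotomy a n with h | h | h <;> rw [h] <;> norm_num

lemma opr_prime {Y p : ℕ} (hp : p ∈ opr Y) : p.Prime := (mem_opr.mp hp).1

lemma ES_js (Y m j : ℕ) : ES (opr Y) (fun p => js (-(m : ℤ)) p) j =
    ∑ n ∈ prods (opr Y) j, js (-(m : ℤ)) n := by
  unfold ES prods
  rw [sum_image]
  · apply sum_congr rfl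
    intro T hT
    rw [mem_powersetCard] at hT
    unfold js
    rw [jacobi_prod _ _ fun p hp => (opr_prime (hT.1 hp)).ne_zero]
    push_cast
    rfl
  · intro T hT T' hT' h
    rw [mem_coe, mem_powersetCard] at hT hT'
    have h1 := Nat.primeFactors_prod (s := T) fun p hp => opr_prime (hT.1 hp)
    have h2 := Nat.primeFactors_prod (s := T') fun p hp => opr_prime (hT'.1 hp)
    rw [← h1, ← h2]
    exact congrArg Nat.primeFactors h

lemma prods_osf {X Y j n : ℕ} (hY : Y ^ j ≤ X) (hn : n ∈ prods (opr Y) j) : n ∈ osf X := by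
  obtain ⟨h1, h2, h3, h4, _⟩ := prods_spec (fun p hp => opr_prime hp)
    (fun p hp => (mem_opr.mp hp).2.1) hn
  rw [osf, mem_filter, mem_Icc]
  refine ⟨⟨h1, h2.trans hY⟩, ?_, h4⟩
  rw [← Nat.not_even_iff_odd, even_iff_two_dvd]
  intro h
  have : 2 ∈ opr Y := h3 (Nat.mem_primeFactors.mpr ⟨Nat.prime_two, h, by omega⟩)
  exact (mem_opr.mp this).2.2 rfl

/-- second moments of the symmetric functions -/
lemma second (ε : ℝ) (hε : 0 < ε) : ∃ C : ℝ, 0 < C ∧ ∀ X Y j : ℕ, 1 ≤ X → Y ^ j ≤ X →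
    ∑ m ∈ sqf X, ES (opr Y) (fun p => js (-(m : ℤ)) p) j ^ 2 ≤
      C * (X : ℝ) ^ (1 + ε) * ((opr Y).card.choose j : ℝ) := by
  obtain ⟨C, hC, hLS⟩ := Pool.Agent.H423R2.RZL.HBLSn.HBLS (ε / 2) (by positivity)
  refine ⟨2 * C, by positivity, ?_⟩
  intro X Y j hX hY
  have hXpos : (0 : ℝ) < X := by exact_mod_cast hX
  have h1 := hLS X X hX hX (fun n => if n ∈ prods (opr Y) j then (js (-1) n : ℂ) else 0)
  have hsub : prods (opr Y) j ⊆ osf X := fun n hn => prods_osf hY hn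
  have e1 : ∀ m : ℕ, ∑ n ∈ osf X, (if n ∈ prods (opr Y) j then (js (-1) n : ℂ) else 0) *
      (js m n : ℂ) = ((ES (opr Y) (fun p => js (-(m : ℤ)) p) j : ℝ) : ℂ) := by
    intro m
    have e2 : ∀ n ∈ osf X, (if n ∈ prods (opr Y) j then (js (-1) n : ℂ) else 0) *
        (js m n : ℂ) = if n ∈ prods (opr Y) j then ((js (-(m : ℤ)) n : ℝ) : ℂ) else 0 := by
      intro n _
      split_ifs with h
      · have : js (-(m : ℤ)) n = js (-1) n * js m n := by
          unfold js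
          rw [← neg_one_mul, jacobiSym.mul_left]
          push_cast
          rfl
        rw [this]; push_cast; rfl
      · simp
    rw [sum_congr rfl e2, sum_ite_mem, inter_eq_right.mpr hsub, ES_js]
    push_cast
    rfl
  have e3 : ∀ m ∈ sqf X, ‖∑ n ∈ osf X, (if n ∈ prods (opr Y) j then (js (-1) n : ℂ) else 0) *
      (js m n : ℂ)‖ ^ 2 = ES (opr Y) (fun p => js (-(m : ℤ)) p) j ^ 2 := by
    intro m _
    rw [e1 m, Complex.norm_real, Real.norm_eq_abs, sq_abs]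
  rw [sum_congr rfl e3] at h1
  refine h1.trans ?_
  have e4 : ∑ n ∈ osf X, ‖(if n ∈ prods (opr Y) j then (js (-1) n : ℂ) else 0)‖ ^ 2 ≤
      ((opr Y).card.choose j : ℝ) := by
    rw [← card_prods (fun p hp => opr_prime hp) j, ← nsmul_one, ← sum_const]
    have e2 : ∀ n ∈ osf X, ‖(if n ∈ prods (opr Y) j then (js (-1) n : ℂ) else 0)‖ ^ 2 ≤
        if n ∈ prods (opr Y) j then (1 : ℝ) else 0 := by
      intro n _
      split_ifs with h
      · rw [Complex.norm_real, Real.norm_eq_abs, sq_abs]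
        exact js_sq_le _ _
      · simp
    refine (sum_le_sum e2).trans ?_
    rw [sum_ite_mem, inter_eq_right.mpr hsub]
  have e5 : C * ((X : ℝ) * X) ^ (ε / 2) * (X + X) = 2 * C * (X : ℝ) ^ (1 + ε) := by
    rw [mul_rpow hXpos.le hXpos.le, ← rpow_add hXpos, rpow_add hXpos 1, rpow_one,
      show ε / 2 + ε / 2 = ε by ring]
    ring
  rw [e5]
  exact mul_le_mul_of_nonneg_left e4 (by positivity)

/-- moments of the character sums over primes -/
theorem moments (ε : ℝ) (hε : 0 < ε) : ∃ C : ℝ, 0 < C ∧ ∀ X Y k : ℕ, 1 ≤ X → 1 ≤ Y → Y ^ k ≤ X →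
    ∑ m ∈ sqf X, cs Y m ^ (2 * k) ≤ C * (X : ℝ) ^ (1 + ε) * (4 * k * (opr Y).card) ^ k := by
  obtain ⟨C, hC, h⟩ := second ε hε
  refine ⟨C, hC, ?_⟩
  intro X Y k hX hY hYX
  have h1 := moment (S := sqf X) (P := opr Y) (x := fun m p => js (-(m : ℤ)) p)
    (fun m _ p _ => js_cube _ _) (D := C * (X : ℝ) ^ (1 + ε)) k (by positivity)
    (fun j hj => h X Y j hX ((Nat.pow_le_pow_right hY hj).trans hYX)) k 0 (by omega)
  simpa [ES_zero, cs] using h1

/-- Markov's inequality -/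
theorem markov (ε : ℝ) (hε : 0 < ε) : ∃ C : ℝ, 0 < C ∧ ∀ X Y k : ℕ, ∀ η : ℝ, 0 < η → 1 ≤ X →
    1 ≤ Y → Y ^ k ≤ X → 0 < (opr Y).card →
    (((sqf X).filter fun m => η * (opr Y).card ≤ |cs Y m|).card : ℝ) ≤
      C * (X : ℝ) ^ (1 + ε) * (4 * k / (η ^ 2 * (opr Y).card)) ^ k := by
  obtain ⟨C, hC, h⟩ := moments ε hε
  refine ⟨C, hC, ?_⟩
  intro X Y k η hη hX hY hYX hM
  have h1 := h X Y k hX hY hYX
  obtain ⟨M, hMe⟩ : ∃ M : ℕ, M = (opr Y).card := ⟨_, rfl⟩
  rw [← hMe] at h1 hM ⊢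
  have hM0 : (0 : ℝ) < M := by exact_mod_cast hM
  obtain ⟨T, hT⟩ : ∃ T : Finset ℕ, T = (sqf X).filter fun m => η * M ≤ |cs Y m| := ⟨_, rfl⟩
  rw [← hT]
  have h2 : (T.card : ℝ) * (η * M) ^ (2 * k) ≤ ∑ m ∈ sqf X, cs Y m ^ (2 * k) := by
    rw [← nsmul_eq_mul, ← sum_const]
    refine le_trans (sum_le_sum (g := fun m => cs Y m ^ (2 * k)) fun m hm => ?_)
      (sum_le_sum_of_subset_of_nonneg (hT ▸ filter_subset _ _) fun m _ _ => ?_)
    · rw [hT, mem_filter] at hm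
      rw [pow_mul, pow_mul, ← sq_abs (cs Y m)]
      apply pow_le_pow_left₀ (by positivity)
      exact pow_le_pow_left₀ (by positivity) hm.2 2
    · rw [pow_mul]; positivity
  have h3 := h2.trans h1
  have hp : 0 < (η * M) ^ (2 * k) := by positivity
  have h4 : (T.card : ℝ) ≤ C * (X : ℝ) ^ (1 + ε) * (4 * k * M) ^ k / (η * M) ^ (2 * k) := by
    rw [le_div_iff₀ hp]; exact h3
  refine h4.trans (le_of_eq ?_)
  rw [mul_div_assoc, pow_mul, ← div_pow]
  congr 2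
  field_simp

end Pool.Agent.TH349.EQ
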