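import Pool.Agent.TH349.EQ.Moment

set_option autoImplicit false

/-! Splitting of primes in imaginary quadratic fields and the sums `cs`. -/

namespace Pool.Agent.TH349.EQ

open Finset Real Pool.Agent.H306R2.RZ Pool.Agent.W57.SW

/-- negative fundamental discriminants -/
def IsNFD (d : ℤ) : Prop :=
  d < 0 ∧ ((d % 4 = 1 ∧ Squarefree d) ∨
    (∃ m : ℤ, d = 4 * m ∧ (m % 4 = 2 ∨ m % 4 = 3) ∧ Squarefree m))

/-- `p` splits in `ℚ(√d)`: `p` does not divide `d` and `d` is a square mod `4p` -/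
def Splits (d : ℤ) (p : ℕ) : Prop := ¬ ((p : ℤ) ∣ d) ∧ ∃ x : ℤ, (4 * (p : ℤ)) ∣ x ^ 2 - d

/-- `p` is inert in `ℚ(√d)`: `d` is not a square mod `4p` -/
def Inert (d : ℤ) (p : ℕ) : Prop := ¬ ∃ x : ℤ, (4 * (p : ℤ)) ∣ x ^ 2 - d

lemma nfd_mod {d : ℤ} (hd : IsNFD d) : d % 4 = 0 ∨ d % 4 = 1 := by
  rcases hd.2 with h | ⟨m, h, _⟩
  · right; exact h.1
  · left; omega

lemma sq_mod4p {d : ℤ} (hd : d % 4 = 0 ∨ d % 4 = 1) {p : ℕ} (hp : p.Prime) (hp2 : p ≠ 2) :
    (∃ x : ℤ, (4 * (p : ℤ)) ∣ x ^ 2 - d) ↔ IsSquare (d : ZMod p) := by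
  have : Fact p.Prime := ⟨hp⟩
  constructor
  · rintro ⟨x, hx⟩
    have h1 : (p : ℤ) ∣ x ^ 2 - d := (Dvd.intro_left 4 rfl).trans hx
    rw [← ZMod.intCast_zmod_eq_zero_iff_dvd] at h1
    push_cast at h1
    exact ⟨x, by linear_combination -h1⟩
  · rintro ⟨r, hr⟩
    obtain ⟨x, hx⟩ : ∃ x : ℤ, (x : ZMod p) = r := ⟨r.val, by simp⟩
    have h1 : (p : ℤ) ∣ x ^ 2 - d := by
      rw [← ZMod.intCast_zmod_eq_zero_iff_dvd]
      push_cast
      rw [hx, hr]; ring
    have hodd : (p : ℤ) % 2 = 1 := by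
      have := hp.eq_two_or_odd
      omega
    -- adjust the parity
    obtain ⟨z, hz1, hz2⟩ : ∃ z : ℤ, (p : ℤ) ∣ z ^ 2 - d ∧ z % 2 = d % 2 := by
      rcases Int.emod_two_eq_zero_or_one (x - d) with h | h
      · exact ⟨x, h1, by omega⟩
      · refine ⟨x + p, ?_, by omega⟩
        have : (x + p) ^ 2 - d = (x ^ 2 - d) + p * (2 * x + p) := by ring
        rw [this]
        exact dvd_add h1 (Dvd.intro _ rfl)
    have h4 : (4 : ℤ) ∣ z ^ 2 - d := by
      rcases Int.emod_two_eq_zero_or_one z with h | h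
      · obtain ⟨w, hw⟩ : ∃ w, z = 2 * w := ⟨z / 2, by omega⟩
        have : z ^ 2 = 4 * (w ^ 2) := by rw [hw]; ring
        rw [this]; omega
      · obtain ⟨w, hw⟩ : ∃ w, z = 2 * w + 1 := ⟨z / 2, by omega⟩
        have : z ^ 2 = 4 * (w ^ 2 + w) + 1 := by rw [hw]; ring
        rw [this]; omega
    have hcop : IsCoprime (4 : ℤ) (p : ℤ) := by
      rw [Int.isCoprime_iff_gcd_eq_one]
      have : Nat.Coprime 4 p := by
        have h2 : Nat.Coprime 2 p := (Nat.coprime_primes Nat.prime_two hp).mpr (Ne.symm hp2)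
        exact Nat.Coprime.pow_left 2 h2
      simpa [Int.gcd] using this
    exact ⟨z, hcop.mul_dvd h4 hz1⟩

lemma js_split {d : ℤ} (hd : d % 4 = 0 ∨ d % 4 = 1) {p : ℕ} (hp : p.Prime) (hp2 : p ≠ 2) :
    (Splits d p → js d p = 1) ∧ (Inert d p → js d p = -1) ∧
      (¬ Splits d p → ¬ Inert d p → js d p = 0) := by
  have : Fact p.Prime := ⟨hp⟩
  have hjs : js d p = (legendreSym p d : ℝ) := by
    unfold js
    rw [jacobiSym.legendreSym.to_jacobiSym]
  unfold Splits Inert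
  rw [sq_mod4p hd hp hp2, hjs]
  have h0 : ((d : ZMod p) = 0) ↔ (p : ℤ) ∣ d := ZMod.intCast_zmod_eq_zero_iff_dvd d p
  refine ⟨?_, ?_, ?_⟩
  · rintro ⟨h1, h2⟩
    have h3 := (legendreSym.eq_one_iff p (a := d) (by rwa [Ne, h0])).mpr h2
    rw [h3]; norm_num
  · intro h1
    have h3 := (legendreSym.eq_neg_one_iff p (a := d)).mpr h1
    rw [h3]; norm_num
  · intro h1 h2
    push Not at h2
    have h4 : (p : ℤ) ∣ d := by
      by_contra h
      exact h1 ⟨h, h2⟩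
    have h3 := (legendreSym.eq_zero_iff p d).mpr (h0.mpr h4)
    rw [h3]; norm_num

open Classical in
/-- `1` if `p` splits, `-1` if `p` is inert, `0` otherwise -/
noncomputable def ch (d : ℤ) (p : ℕ) : ℝ := if Splits d p then 1 else if Inert d p then -1 else 0

lemma ch_eq {d : ℤ} (hd : d % 4 = 0 ∨ d % 4 = 1) {p : ℕ} (hp : p.Prime) (hp2 : p ≠ 2) :
    ch d p = js d p := by
  obtain ⟨h1, h2, h3⟩ := js_split hd hp hp2
  unfold ch
  split_ifs with a b
  · exact (h1 a).symm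
  · exact (h2 b).symm
  · exact (h3 a b).symm

lemma ch_abs (d : ℤ) (p : ℕ) : |ch d p| ≤ 1 := by
  unfold ch
  split_ifs <;> norm_num

/-- the squarefree kernel `m` of a negative fundamental discriminant -/
lemma nfd_kernel {d : ℤ} (hd : IsNFD d) : ∃ m : ℕ, 1 ≤ m ∧ m ≤ d.natAbs ∧ Squarefree m ∧
    (d = -(m : ℤ) ∨ d = -4 * (m : ℤ)) ∧
    ∀ p : ℕ, p.Prime → p ≠ 2 → js d p = js (-(m : ℤ)) p := by
  obtain ⟨hneg, h⟩ := hd
  rcases h with ⟨_, hs⟩ | ⟨m, hm, _, hs⟩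
  · refine ⟨d.natAbs, by omega, le_rfl, ?_, ?_, ?_⟩
    · exact Int.squarefree_natAbs.mpr hs
    · left; omega
    · intro p _ _
      congr 1; omega
  · refine ⟨m.natAbs, by omega, by omega, ?_, ?_, ?_⟩
    · exact Int.squarefree_natAbs.mpr hs
    · right; omega
    · intro p hp hp2
      have e : d = 2 ^ 2 * (-(m.natAbs : ℤ)) := by omega
      unfold js
      have h2p : jacobiSym (2 ^ 2) p = 1 := by
        apply jacobiSym.sq_one'
        have : Nat.Coprime 2 p := (Nat.coprime_primes Nat.prime_two hp).mpr (Ne.symm hp2)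
        simpa [Int.gcd] using this
      rw [e, jacobiSym.mul_left, h2p, one_mul]

/-- counting functions with a real threshold -/
lemma lt_iff_le {y : ℝ} {p : ℕ} (hp : p.Prime) : ((p : ℝ) < y) ↔ p ≤ ⌈y⌉₊ - 1 := by
  rw [← Nat.lt_ceil]
  have := hp.pos
  omega

open Classical in
lemma ncard_eq (Q : ℕ → Prop) (y : ℝ) :
    Set.ncard {p : ℕ | p.Prime ∧ (p : ℝ) < y ∧ Q p} = ((pr (⌈y⌉₊ - 1)).filter Q).card := by
  rw [← Set.ncard_coe_finset]
  congr 1
  ext p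
  rw [Set.mem_ofPred_eq, mem_coe, mem_filter, mem_pr]
  constructor
  · rintro ⟨h1, h2, h3⟩
    exact ⟨⟨h1, (lt_iff_le h1).mp h2⟩, h3⟩
  · rintro ⟨⟨h1, h2⟩, h3⟩
    exact ⟨h1, (lt_iff_le h1).mpr h2, h3⟩

/-- number of split primes `p < y` -/
noncomputable def splitCount (d : ℤ) (y : ℝ) : ℕ :=
  Set.ncard {p : ℕ | p.Prime ∧ (p : ℝ) < y ∧ Splits d p}

/-- number of inert primes `p < y` -/
noncomputable def inertCount (d : ℤ) (y : ℝ) : ℕ :=
  Set.ncard {p : ℕ | p.Prime ∧ (p : ℝ) < y ∧ Inert d p}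

lemma not_both {d : ℤ} {p : ℕ} (h : Splits d p) : ¬ Inert d p := fun h' => h' h.2

/-- the difference of the counts is the character sum up to the prime two -/
lemma diff_le {d : ℤ} (hd : IsNFD d) {m : ℕ}
    (hm : ∀ p : ℕ, p.Prime → p ≠ 2 → js d p = js (-(m : ℤ)) p) (y : ℝ) :
    |(splitCount d y : ℝ) - inertCount d y| ≤ |cs (⌈y⌉₊ - 1) m| + 1 := by
  classical
  obtain ⟨Y, hY⟩ : ∃ Y, Y = ⌈y⌉₊ - 1 := ⟨_, rfl⟩
  rw [splitCount, inertCount, ncard_eq, ncard_eq, ← hY]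
  have e1 : (((pr Y).filter (Splits d)).card : ℝ) - ((pr Y).filter (Inert d)).card =
      ∑ p ∈ pr Y, ch d p := by
    rw [card_filter, card_filter]
    push_cast
    rw [← sum_sub_distrib]
    apply sum_congr rfl
    intro p _
    unfold ch
    by_cases h1 : Splits d p
    · have h2 := not_both h1
      rw [if_pos h1, if_neg h2, if_pos h1]; norm_num
    · by_cases h2 : Inert d p
      · rw [if_neg h1, if_pos h2, if_neg h1, if_pos h2]; norm_num
      · rw [if_neg h1, if_neg h2, if_neg h1, if_neg h2]; norm_num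
  rw [e1]
  have e2 : ∑ p ∈ opr Y, ch d p = cs Y m := by
    unfold cs
    apply sum_congr rfl
    intro p hp
    rw [mem_opr] at hp
    rw [ch_eq (nfd_mod hd) hp.1 hp.2.2, hm p hp.1 hp.2.2]
  by_cases h2 : 2 ∈ pr Y
  · rw [← add_sum_erase _ _ h2]
    change |ch d 2 + ∑ p ∈ opr Y, ch d p| ≤ _
    rw [e2]
    have := ch_abs d 2
    have h3 := abs_add_le (ch d 2) (cs Y m)
    linarith
  · have : opr Y = pr Y := erase_eq_of_notMem h2
    rw [← this, e2]
    linarith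

end Pool.Agent.TH349.EQ
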