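import Pool.Agent.TH349.EQ.Asym
import Pool.Agent.TH349.EQ.Split

set_option autoImplicit false

/-! The exceptional set over a range of thresholds. -/

namespace Pool.Agent.TH349.EQ

open Finset Real Pool.Agent.H306R2.RZ Pool.Agent.W57.SW

lemma nfd_le {d : ℤ} (hd : IsNFD d) : d ≤ -3 := by
  have h1 := nfd_mod hd
  have h2 := hd.1
  omega

lemma log_ge_one {d : ℤ} (hd : IsNFD d) : 1 ≤ log |(d : ℝ)| := by
  have h1 : (d : ℝ) ≤ -3 := by exact_mod_cast nfd_le hd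
  have h2 : (3 : ℝ) ≤ |(d : ℝ)| := by rw [abs_of_neg (by linarith)]; linarith
  rw [le_log_iff_exp_le (by linarith)]
  linarith [exp_one_lt_d9]

lemma log_pow_le (B ε : ℝ) (hB : 0 ≤ B) (hε : 0 < ε) : ∃ K : ℝ, 0 < K ∧ ∀ X : ℕ, 1 ≤ X →
    (log X) ^ B + 1 ≤ K * (X : ℝ) ^ ε := by
  obtain ⟨s, hs⟩ : ∃ s : ℝ, s = ε / (B + 1) := ⟨_, rfl⟩
  have hs0 : 0 < s := by rw [hs]; positivity
  refine ⟨(1 / s) ^ B + 1, by positivity, ?_⟩
  intro X hX
  have hX1 : (1 : ℝ) ≤ X := by exact_mod_cast hX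
  have hX0 : (0 : ℝ) < X := by linarith
  have h1 : log (X : ℝ) ≤ (X : ℝ) ^ s / s := log_le_rpow_div hX0.le hs0
  have h2 : (log (X : ℝ)) ^ B ≤ ((X : ℝ) ^ s / s) ^ B := rpow_le_rpow (log_nonneg hX1) h1 hB
  have h3 : ((X : ℝ) ^ s / s) ^ B = (1 / s) ^ B * (X : ℝ) ^ (s * B) := by
    rw [div_eq_mul_one_div, mul_rpow (by positivity) (by positivity), ← rpow_mul hX0.le]
    ring
  have h4 : (X : ℝ) ^ (s * B) ≤ (X : ℝ) ^ ε := by
    apply rpow_le_rpow_of_exponent_le hX1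
    rw [hs, div_mul_eq_mul_div, div_le_iff₀ (by positivity)]
    nlinarith
  have h5 : (1 : ℝ) ≤ (X : ℝ) ^ ε := one_le_rpow hX1 hε.le
  have h6 : 0 < (1 / s) ^ B := by positivity
  calc (log X) ^ B + 1 ≤ (1 / s) ^ B * (X : ℝ) ^ (s * B) + 1 := by rw [← h3]; linarith
    _ ≤ (1 / s) ^ B * (X : ℝ) ^ ε + 1 * (X : ℝ) ^ ε := by
        have := mul_le_mul_of_nonneg_left h4 h6.le
        linarith
    _ = _ := by ring

/-- the exceptional discriminants -/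
def Bad (A B δ : ℝ) (X : ℕ) : Set ℤ := {d : ℤ | IsNFD d ∧ |d| ≤ (X : ℤ) ∧
  ∃ y : ℝ, (log |(d : ℝ)|) ^ A ≤ y ∧ y ≤ (log |(d : ℝ)|) ^ B ∧
    y ^ (1 - δ) < |(splitCount d y : ℝ) - inertCount d y|}

lemma ncard_triv {S : Set ℤ} {X : ℕ} (hS : ∀ d ∈ S, IsNFD d ∧ |d| ≤ (X : ℤ)) : S.ncard ≤ X := by
  have h1 : S ⊆ ↑((Icc 1 X).image fun m : ℕ => -(m : ℤ)) := by
    intro d hd
    obtain ⟨h1, h2⟩ := hS d hd
    have h3 := nfd_le h1
    rw [Int.abs_eq_natAbs] at h2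
    rw [coe_image, Set.mem_image]
    refine ⟨d.natAbs, ?_, by omega⟩
    rw [mem_coe, mem_Icc]
    omega
  have h2 := Set.ncard_le_ncard h1 (Finset.finite_toSet _)
  rw [Set.ncard_coe_finset] at h2
  refine h2.trans (card_image_le.trans ?_)
  rw [Nat.card_Icc, Nat.add_sub_cancel]

theorem main (A B δ ε : ℝ) (hA : 1 < A) (hδ0 : 0 ≤ δ) (hε : 0 < ε) :
    ∃ K : ℝ, 0 < K ∧ ∀ X : ℕ, 1 ≤ X →
      ((Bad A B δ X).ncard : ℝ) ≤ K * (X : ℝ) ^ (1 / A + 2 * δ + ε) := by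
  classical
  have hA0 : 0 < A := by linarith
  have htriv : ∀ X : ℕ, (Bad A B δ X).ncard ≤ X := fun X => ncard_triv fun d hd => ⟨hd.1, hd.2.1⟩
  rcases le_or_gt (1 / 2) δ with hcase | hcase
  · refine ⟨1, one_pos, fun X hX => ?_⟩
    have hX1 : (1 : ℝ) ≤ X := by exact_mod_cast hX
    have h1 : ((Bad A B δ X).ncard : ℝ) ≤ X := by exact_mod_cast htriv X
    rw [one_mul]
    refine h1.trans ?_
    calc (X : ℝ) = (X : ℝ) ^ (1 : ℝ) := (rpow_one _).symm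
      _ ≤ _ := by
        apply rpow_le_rpow_of_exponent_le hX1
        have : 0 < 1 / A := by positivity
        linarith
  obtain ⟨c, hc⟩ : ∃ c : ℝ, c = (1 / A) ^ A / 2 := ⟨_, rfl⟩
  have hc0 : 0 < c := by rw [hc]; positivity
  obtain ⟨K0, hK0, hcore⟩ := core A |B| c δ (ε / 2) hA hc0 hδ0 (by positivity)
  obtain ⟨K2, hK2, hlogp⟩ := log_pow_le |B| (ε / 2) (abs_nonneg B) (by positivity)
  -- large `X`
  obtain ⟨X1, hX1⟩ : ∃ X1 : ℕ, ∀ X : ℕ, X1 ≤ X → 4 ≤ c * (log X) ^ A ∧ 1 ≤ log (X : ℝ) := by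
    have h1 : ∀ᶠ X : ℕ in Filter.atTop, 4 / c ≤ (log (X : ℝ)) ^ A := by
      have := ((tendsto_rpow_atTop hA0).comp tendsto_log_atTop).comp
        (tendsto_natCast_atTop_atTop (R := ℝ))
      exact this.eventually (Filter.eventually_ge_atTop _)
    have h2 : ∀ᶠ X : ℕ in Filter.atTop, 1 ≤ log (X : ℝ) :=
      (tendsto_log_atTop.comp (tendsto_natCast_atTop_atTop (R := ℝ))).eventually
        (Filter.eventually_ge_atTop _)
    obtain ⟨X1, hX1⟩ := Filter.eventually_atTop.mp (h1.and h2)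
    refine ⟨X1, fun X hX => ⟨?_, (hX1 X hX).2⟩⟩
    have := (hX1 X hX).1
    rw [div_le_iff₀ hc0] at this
    linarith
  refine ⟨2 * K0 * K2 + 1 + X1, by positivity, ?_⟩
  intro X hX
  have hXr : (1 : ℝ) ≤ X := by exact_mod_cast hX
  have hXpos : (0 : ℝ) < X := by linarith
  have hpow1 : (1 : ℝ) ≤ (X : ℝ) ^ (1 / A + 2 * δ + ε) := one_le_rpow hXr (by positivity)
  have hX1n : (0 : ℝ) ≤ X1 := Nat.cast_nonneg _
  rcases lt_or_ge X X1 with hs | hs
  · have h2 : ((Bad A B δ X).ncard : ℝ) ≤ X1 := by exact_mod_cast (htriv X).trans hs.le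
    calc _ ≤ (2 * K0 * K2 + 1 + X1) * 1 := by
          have : 0 < K0 * K2 := by positivity
          linarith
      _ ≤ _ := mul_le_mul_of_nonneg_left hpow1 (by positivity)
  obtain ⟨hbig, hlog1⟩ := hX1 X hs
  obtain ⟨t, ht⟩ : ∃ t : ℝ, t = log X := ⟨_, rfl⟩
  rw [← ht] at hbig hlog1
  obtain ⟨T, hT⟩ : ∃ T : ℕ → Finset ℕ, T = fun Y : ℕ => if c * t ^ A ≤ Y then
    (sqf X).filter (fun m => (Y : ℝ) ^ (1 - δ) / 2 ≤ |cs Y m|) else ∅ := ⟨_, rfl⟩
  obtain ⟨F, hF⟩ : ∃ F : Finset ℤ, F = (Icc 1 ⌊(X : ℝ) ^ (1 / A)⌋₊).image (fun m : ℕ => -(m : ℤ)) ∪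
    (range (⌊t ^ |B|⌋₊ + 1)).biUnion (fun Y => (T Y).image (fun m : ℕ => -(m : ℤ)) ∪
      (T Y).image (fun m : ℕ => -4 * (m : ℤ))) := ⟨_, rfl⟩
  have hsub : Bad A B δ X ⊆ ↑F := by
    rintro d ⟨hd, hdX, y, hy1, hy2, hy3⟩
    rw [hF, mem_coe, mem_union]
    have hd3 := nfd_le hd
    have hdr : (3 : ℝ) ≤ |(d : ℝ)| := by
      have : (d : ℝ) ≤ -3 := by exact_mod_cast hd3
      rw [abs_of_neg (by linarith)]; linarith
    have hdXr : |(d : ℝ)| ≤ X := by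
      have : ((|d| : ℤ) : ℝ) ≤ ((X : ℤ) : ℝ) := by exact_mod_cast hdX
      rw [Int.cast_abs] at this
      simpa using this
    have hnat : ((d.natAbs : ℕ) : ℝ) = |(d : ℝ)| := by
      rw [Nat.cast_natAbs, Int.cast_abs]
    by_cases hsm : |(d : ℝ)| ≤ (X : ℝ) ^ (1 / A)
    · left
      rw [mem_image]
      refine ⟨d.natAbs, ?_, by omega⟩
      rw [mem_Icc]
      refine ⟨by omega, Nat.le_floor ?_⟩
      rw [hnat]; exact hsm
    · right
      push Not at hsm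
      obtain ⟨m, hm1, hm2, hm3, hm4, hm5⟩ := nfd_kernel hd
      have hdiff := diff_le hd hm5 y
      obtain ⟨Y, hY⟩ : ∃ Y, Y = ⌈y⌉₊ - 1 := ⟨_, rfl⟩
      rw [← hY] at hdiff
      obtain ⟨ld, hld⟩ : ∃ ld : ℝ, ld = log |(d : ℝ)| := ⟨_, rfl⟩
      rw [← hld] at hy1 hy2
      have hld1 : 1 ≤ ld := by rw [hld]; exact log_ge_one hd
      have hldt : ld ≤ t := by rw [hld, ht]; exact log_le_log (by linarith) hdXr
      have hldA : t / A ≤ ld := by
        have := log_le_log (by positivity) hsm.le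
        rw [log_rpow hXpos, ← ht, ← hld] at this
        linarith [show 1 / A * t = t / A by ring]
      have hyA : (1 / A) ^ A * t ^ A ≤ y := by
        refine le_trans ?_ hy1
        rw [← mul_rpow (by positivity) (by linarith)]
        apply rpow_le_rpow (by positivity) _ hA0.le
        linarith [show 1 / A * t = t / A by ring]
      have hyB : y ≤ t ^ |B| := by
        refine hy2.trans ((rpow_le_rpow_of_exponent_le hld1 (le_abs_self B)).trans ?_)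
        exact rpow_le_rpow (by linarith) hldt (abs_nonneg B)
      have hc2 : (1 / A) ^ A * t ^ A = 2 * (c * t ^ A) := by rw [hc]; ring
      have hy8 : 8 ≤ y := by linarith
      have hceil1 := Nat.le_ceil y
      have hceil2 : (⌈y⌉₊ : ℝ) < y + 1 := Nat.ceil_lt_add_one (by linarith)
      have hceil3 : 1 ≤ ⌈y⌉₊ := by
        have : (0 : ℝ) < ⌈y⌉₊ := by linarith
        exact_mod_cast this
      have hYr : (Y : ℝ) = ⌈y⌉₊ - 1 := by rw [hY, Nat.cast_sub hceil3, Nat.cast_one]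
      have hYy : (Y : ℝ) ≤ y := by linarith
      have hYc : c * t ^ A ≤ Y := by linarith
      have hY4 : (4 : ℝ) ≤ Y := by linarith
      have hYB : (Y : ℝ) ≤ t ^ |B| := hYy.trans hyB
      have hmT : m ∈ T Y := by
        rw [hT]
        simp only
        rw [if_pos hYc, mem_filter, sqf, mem_filter, mem_Icc]
        refine ⟨⟨⟨hm1, ?_⟩, hm3⟩, ?_⟩
        · have : (m : ℝ) ≤ X := by
            have h1 : (m : ℝ) ≤ (d.natAbs : ℝ) := by exact_mod_cast hm2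
            rw [hnat] at h1
            linarith
          exact_mod_cast this
        · have h1 : (Y : ℝ) ^ (1 - δ) ≤ y ^ (1 - δ) := rpow_le_rpow (by positivity) hYy (by linarith)
          have h2 : (2 : ℝ) ≤ (Y : ℝ) ^ (1 - δ) := by
            calc (2 : ℝ) = (4 : ℝ) ^ (1 / 2 : ℝ) := by
                  rw [show (4 : ℝ) = 2 ^ (2 : ℝ) by norm_num, ← rpow_mul (by norm_num)]; norm_num
              _ ≤ (Y : ℝ) ^ (1 / 2 : ℝ) := rpow_le_rpow (by norm_num) hY4 (by norm_num)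
              _ ≤ _ := rpow_le_rpow_of_exponent_le (by linarith) (by linarith)
          linarith
      rw [mem_biUnion]
      refine ⟨Y, ?_, ?_⟩
      · rw [mem_range, Nat.lt_succ_iff]
        exact Nat.le_floor hYB
      · rw [mem_union, mem_image, mem_image]
        rcases hm4 with h | h
        · left; exact ⟨m, hmT, h.symm⟩
        · right; exact ⟨m, hmT, h.symm⟩
  have hcard : (Bad A B δ X).ncard ≤ F.card := by
    have := Set.ncard_le_ncard hsub (Finset.finite_toSet _)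
    rwa [Set.ncard_coe_finset] at this
  have hTY : ∀ Y ∈ range (⌊t ^ |B|⌋₊ + 1), ((T Y).card : ℝ) ≤
      K0 * (X : ℝ) ^ (1 / A + 2 * δ + ε / 2) := by
    intro Y hY
    rw [hT]
    simp only
    split_ifs with h
    · rw [mem_range, Nat.lt_succ_iff] at hY
      have hYB : (Y : ℝ) ≤ t ^ |B| := (Nat.le_floor_iff (by positivity)).mp hY
      rw [ht] at h hYB
      exact hcore X Y hX h hYB
    · simp only [card_empty, Nat.cast_zero]
      positivity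
  have hF2 : (F.card : ℝ) ≤ (X : ℝ) ^ (1 / A) + (t ^ |B| + 1) *
      (2 * (K0 * (X : ℝ) ^ (1 / A + 2 * δ + ε / 2))) := by
    have h1 : F.card ≤ ⌊(X : ℝ) ^ (1 / A)⌋₊ + ∑ Y ∈ range (⌊t ^ |B|⌋₊ + 1),
        ((T Y).card + (T Y).card) := by
      rw [hF]
      refine (card_union_le _ _).trans (Nat.add_le_add ?_ ?_)
      · refine card_image_le.trans ?_
        rw [Nat.card_Icc, Nat.add_sub_cancel]
      · refine card_biUnion_le.trans (sum_le_sum fun Y _ => ?_)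
        exact (card_union_le _ _).trans (Nat.add_le_add card_image_le card_image_le)
    have h2 : (F.card : ℝ) ≤ (⌊(X : ℝ) ^ (1 / A)⌋₊ : ℝ) + ∑ Y ∈ range (⌊t ^ |B|⌋₊ + 1),
        (((T Y).card : ℝ) + (T Y).card) := by exact_mod_cast h1
    have h3 : (⌊(X : ℝ) ^ (1 / A)⌋₊ : ℝ) ≤ (X : ℝ) ^ (1 / A) := Nat.floor_le (by positivity)
    have h4 : ∑ Y ∈ range (⌊t ^ |B|⌋₊ + 1), (((T Y).card : ℝ) + (T Y).card) ≤
        ((⌊t ^ |B|⌋₊ : ℝ) + 1) * (2 * (K0 * (X : ℝ) ^ (1 / A + 2 * δ + ε / 2))) := by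
      refine (sum_le_sum (g := fun _ => 2 * (K0 * (X : ℝ) ^ (1 / A + 2 * δ + ε / 2)))
        fun Y hY => ?_).trans ?_
      · have := hTY Y hY
        linarith
      · rw [sum_const, card_range, nsmul_eq_mul]
        push_cast
        exact le_rfl
    have h5 : (⌊t ^ |B|⌋₊ : ℝ) ≤ t ^ |B| := Nat.floor_le (by positivity)
    have h6 : 0 ≤ 2 * (K0 * (X : ℝ) ^ (1 / A + 2 * δ + ε / 2)) := by positivity
    have h7 : ((⌊t ^ |B|⌋₊ : ℝ) + 1) * (2 * (K0 * (X : ℝ) ^ (1 / A + 2 * δ + ε / 2))) ≤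
        (t ^ |B| + 1) * (2 * (K0 * (X : ℝ) ^ (1 / A + 2 * δ + ε / 2))) :=
      mul_le_mul_of_nonneg_right (by linarith) h6
    linarith
  have hcard' : ((Bad A B δ X).ncard : ℝ) ≤ F.card := by exact_mod_cast hcard
  refine hcard'.trans (hF2.trans ?_)
  have h8 := hlogp X hX
  rw [← ht] at h8
  have h9 : (t ^ |B| + 1) * (2 * (K0 * (X : ℝ) ^ (1 / A + 2 * δ + ε / 2))) ≤
      2 * K0 * K2 * (X : ℝ) ^ (1 / A + 2 * δ + ε) := by
    calc _ ≤ (K2 * (X : ℝ) ^ (ε / 2)) * (2 * (K0 * (X : ℝ) ^ (1 / A + 2 * δ + ε / 2))) :=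
          mul_le_mul_of_nonneg_right h8 (by positivity)
      _ = 2 * K0 * K2 * ((X : ℝ) ^ (1 / A + 2 * δ + ε / 2) * (X : ℝ) ^ (ε / 2)) := by ring
      _ = _ := by rw [← rpow_add hXpos]; congr 2; ring
  have h10 : (X : ℝ) ^ (1 / A) ≤ (X : ℝ) ^ (1 / A + 2 * δ + ε) :=
    rpow_le_rpow_of_exponent_le hXr (by linarith)
  have h11 : 0 ≤ (X1 : ℝ) * (X : ℝ) ^ (1 / A + 2 * δ + ε) := by positivity
  linarith

end Pool.Agent.TH349.EQ
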